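import Pool.Agent.H18.SAP.Stmts

set_option autoImplicit false

namespace SAP
open Finset

namespace EXA

theorem smooth_pow {n T Y M u : ℕ} {F : Fin T → ℕ} {lo hi : JJ n T Y → Fin n} (hY : 2 ≤ Y)
    (hM : ∀ d : ℕ, 1 ≤ d → d < n → d ∣ M) (hlh : ∀ j, lo j < hi j) (w : ℕ) :
    1 ≤ w → (∀ p : ℕ, p.Prime → p ∣ w → p ≤ Y) →
    Ex (cc n T Y M u F) lo hi ((w : ℚ) ^ M) := by
  have _ := hY
  induction w using Nat.recOnMul with
  | zero => intro h; exact absurd h (by norm_num)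
  | one => intro _ _; simpa using Ex.one (cc n T Y M u F) lo hi
  | prime p hp =>
    intro _ hs
    have hpY : p ≤ Y := hs p hp dvd_rfl
    let j : JJ n T Y := Sum.inl ⟨⟨p, Nat.lt_succ_of_le hpY⟩, hp⟩
    have hlj := hlh j
    have hlj' : ((lo j : Fin n) : ℕ) < (hi j : ℕ) := hlj
    have hst := Ex.step (cc n T Y M u F) lo hi j
    have hval : ((cc n T Y M u F j (hi j) : ℕ) : ℚ) / (cc n T Y M u F j (lo j) : ℕ) =
        (p : ℚ) ^ ((hi j : ℕ) - (lo j : ℕ)) := by
      have hP : (primorial Y : ℚ) ≠ 0 := by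
        exact_mod_cast (primorial_pos Y).ne'
      have hp0 : (p : ℚ) ≠ 0 := by exact_mod_cast hp.ne_zero
      have e1 : cc n T Y M u F j (hi j) = primorial Y * (p ^ (hi j : ℕ)) := rfl
      have e2 : cc n T Y M u F j (lo j) = primorial Y * (p ^ (lo j : ℕ)) := rfl
      rw [e1, e2]
      push_cast
      rw [mul_div_mul_left _ _ hP, div_eq_iff (pow_ne_zero _ hp0), ← pow_add]
      congr 1
      omega
    rw [hval] at hst
    have hd : ((hi j : ℕ) - (lo j : ℕ)) ∣ M := hM _ (by omega)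
      (lt_of_le_of_lt (Nat.sub_le _ _) (hi j).2)
    obtain ⟨m, hm⟩ := hd
    have := hst.pow m
    rw [← pow_mul, ← hm] at this
    exact this
  | mul a b iha ihb =>
    intro hab hs
    have ha : 1 ≤ a := Nat.pos_of_ne_zero (by rintro rfl; simp at hab)
    have hb : 1 ≤ b := Nat.pos_of_ne_zero (by rintro rfl; simp at hab)
    have h1 := iha ha (fun p hp h => hs p hp (h.mul_right b))
    have h2 := ihb hb (fun p hp h => hs p hp (h.mul_left a))
    have := h1.mul h2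
    rw [← mul_pow] at this
    simpa using this

end EXA

theorem exa : S_EXA := by
  intro n T Y M u F lo hi hY hF hM hlh
  refine ⟨fun w hw hs => EXA.smooth_pow hY hM hlh w hw hs, ?_⟩
  intro f
  let j : JJ n T Y := Sum.inr f
  have hlj : ((lo j : Fin n) : ℕ) < (hi j : ℕ) := hlh j
  have hst := Ex.step (cc n T Y M u F) lo hi j
  have h2 := EXA.smooth_pow (u := u) (F := F) hY hM hlh (2 ^ (u * ((hi j : ℕ) - (lo j : ℕ))))
    (Nat.one_le_two_pow) (by
      intro p hp h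
      have h3 := hp.dvd_of_dvd_pow h
      have := (Nat.prime_dvd_prime_iff_eq hp Nat.prime_two).mp h3
      omega)
  have h4 := hst.mul h2.inv
  have e1 : cc n T Y M u F j (hi j) =
      primorial Y * (F (f (hi j)) * 2 ^ (M * u * (hi j : ℕ))) := rfl
  have e2 : cc n T Y M u F j (lo j) =
      primorial Y * (F (f (lo j)) * 2 ^ (M * u * (lo j : ℕ))) := rfl
  have hval : ((cc n T Y M u F j (hi j) : ℕ) : ℚ) / (cc n T Y M u F j (lo j) : ℕ) *
      (((2 ^ (u * ((hi j : ℕ) - (lo j : ℕ))) : ℕ) : ℚ) ^ M)⁻¹ =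
      (F (f (hi j)) : ℚ) / (F (f (lo j)) : ℚ) := by
    have hP : (primorial Y : ℚ) ≠ 0 := by
      exact_mod_cast (primorial_pos Y).ne'
    have hFl : (F (f (lo j)) : ℚ) ≠ 0 := by
      have := hF (f (lo j))
      exact_mod_cast (by omega : F (f (lo j)) ≠ 0)
    have h20 : (2 : ℚ) ≠ 0 := by norm_num
    have hpw : (2 : ℚ) ^ (M * u * (hi j : ℕ)) =
        2 ^ (M * u * (lo j : ℕ)) * (2 ^ (u * ((hi j : ℕ) - (lo j : ℕ)))) ^ M := by
      rw [← pow_mul, ← pow_add]
      congr 1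
      obtain ⟨d, hd⟩ := Nat.exists_eq_add_of_lt hlj
      rw [hd]
      have : ((lo j : ℕ) + d + 1 - (lo j : ℕ)) = d + 1 := by omega
      rw [this]
      ring
    rw [e1, e2]
    push_cast
    rw [hpw, mul_div_mul_left _ _ hP]
    have hA : (2 : ℚ) ^ (M * u * (lo j : ℕ)) ≠ 0 := pow_ne_zero _ h20
    have hB : ((2 : ℚ) ^ (u * ((hi j : ℕ) - (lo j : ℕ)))) ^ M ≠ 0 :=
      pow_ne_zero _ (pow_ne_zero _ h20)
    field_simp
  rw [hval] at h4
  exact h4

end SAP
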