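import Pool.Agent.H18.SAP.Stmts

set_option autoImplicit false

namespace SAP
open Finset

/-- pigeonhole -/
theorem pig : S_PIG := by
  intro T n M r hrefl hsymm htrans hemb hT
  classical
  -- classes
  let cls : Fin T → Finset (Fin T) := fun a => univ.filter (fun b => r a b)
  let im : Finset (Finset (Fin T)) := univ.image cls
  -- choose representatives
  have hcls : ∀ a b, r a b → cls a = cls b := by
    intro a b hab
    ext c
    simp only [cls, mem_filter, mem_univ, true_and]
    exact ⟨fun h => htrans _ _ _ (hsymm _ _ hab) h, fun h => htrans _ _ _ hab h⟩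
  rcases Nat.eq_zero_or_pos M with hM | hM
  · subst hM
    exact ⟨∅, rfl, by simp⟩
  have hn : 0 < n := by
    rcases Nat.eq_zero_or_pos n with h | h
    · subst h
      obtain ⟨i, _⟩ := hemb ((OrderIso.refl (Fin 0)).toOrderEmbedding.trans
        (Fin.castLEOrderEmb (Nat.zero_le T)))
      exact i.elim0
    · exact h
  have hTpos : 0 < T := lt_of_lt_of_le (Nat.mul_pos hn hM) hT
  have : Nonempty (Fin T) := ⟨⟨0, hTpos⟩⟩
  have hlt : im.card < n := by
    by_contra hge
    push Not at hge
    -- representatives
    have hrep : ∀ s ∈ im, ∃ a, cls a = s := by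
      intro s hs
      obtain ⟨a, _, ha⟩ := mem_image.mp hs
      exact ⟨a, ha⟩
    choose! rep hrep using hrep
    let R : Finset (Fin T) := im.image rep
    have hRcard : R.card = im.card := by
      apply card_image_of_injOn
      intro s hs s' hs' h
      have := congrArg cls h
      rw [hrep s hs, hrep s' hs'] at this
      exact this
    obtain ⟨R', hR'sub, hR'card⟩ := exists_subset_card_eq (s := R) (n := n) (by omega)
    let f : Fin n ↪o Fin T := R'.orderEmbOfFin hR'card
    obtain ⟨i, j, hij, hr⟩ := hemb f
    have hi : f i ∈ R := hR'sub (orderEmbOfFin_mem _ _ _)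
    have hj : f j ∈ R := hR'sub (orderEmbOfFin_mem _ _ _)
    obtain ⟨s, hs, hsi⟩ := mem_image.mp hi
    obtain ⟨s', hs', hsj⟩ := mem_image.mp hj
    have h1 : cls (f i) = s := by rw [← hsi, hrep s hs]
    have h2 : cls (f j) = s' := by rw [← hsj, hrep s' hs']
    have h3 : s = s' := by rw [← h1, ← h2]; exact hcls _ _ hr
    have : f i = f j := by rw [← hsi, ← hsj, h3]
    exact hij (f.injective this)
  -- pigeonhole
  have hmap : ∀ a ∈ (univ : Finset (Fin T)), cls a ∈ im := fun a _ => mem_image_of_mem _ (mem_univ _)
  have hcard : im.card * (M - 1) < (univ : Finset (Fin T)).card := by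
    rw [card_univ, Fintype.card_fin]
    calc im.card * (M - 1) < n * M := by
          have h1 : im.card * (M - 1) ≤ im.card * M := Nat.mul_le_mul_left _ (Nat.sub_le _ _)
          have h2 : im.card * M < n * M := Nat.mul_lt_mul_of_pos_right hlt hM
          omega
      _ ≤ T := hT
  obtain ⟨s, hs, hcs⟩ := exists_lt_card_fiber_of_mul_lt_card_of_maps_to hmap hcard
  obtain ⟨S, hSsub, hScard⟩ := exists_subset_card_eq
    (s := univ.filter (fun a => cls a = s)) (n := M) (by omega)
  refine ⟨S, hScard, ?_⟩
  intro a ha b hb
  have ha' : cls a = s := (mem_filter.mp (hSsub ha)).2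
  have hb' : cls b = s := (mem_filter.mp (hSsub hb)).2
  have : b ∈ cls a := by
    rw [ha', ← hb']
    simp only [cls, mem_filter, mem_univ, true_and]
    exact hrefl b
  simpa [cls] using this

end SAP
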